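import Pool.Agent.Lib.GP.Assemble
import Pool.Agent.Lib.GPX.Cont
import Pool.Agent.Lib.H56P.F03

set_option autoImplicit false

/-!
# The probability that a partition is graphical is `n ^ (-α + o(1))`, `0.0792 ≤ α ≤ 0.0793`

The exponent `α` exists; it is one half of the persistence exponent `θ` of an explicit Gaussian
functional, which is also the persistence exponent of the stationary Gaussian process with
covariance `(1 + |s - t| / 2) e ^ (-|s - t| / 2)`, and `0.1584 ≤ θ ≤ 0.1586`.
-/

namespace Pool.Agent.Results.MP_08fd0c_co.DecayExponentValue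

open Finset Filter Topology MeasureTheory ProbabilityTheory Pool.Agent.Lib.GraphPart

/-- A partition `P` of `m` is graphical if there is a simple graph on `k` vertices, where `k` is
the number of parts of `P`, whose multiset of vertex degrees is the multiset of parts of `P`. -/
def IsGraphical {m : ℕ} (P : m.Partition) : Prop :=
  ∃ G : SimpleGraph (Fin (Multiset.card P.parts)), ∃ _ : DecidableRel G.Adj,
    (univ : Finset (Fin (Multiset.card P.parts))).val.map (fun v => G.degree v) = P.parts

open Classical in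
/-- The number of graphical partitions of `m` divided by the number of partitions of `m`. -/
noncomputable def graphicalProb (m : ℕ) : ℝ :=
  (((univ : Finset m.Partition).filter fun P => IsGraphical P).card : ℝ) /
    (Fintype.card m.Partition : ℝ)

/-- The walk with steps `ξ 0, ξ 1, …`: its position `ξ 0 + … + ξ (i-1)` after `i` steps. -/
def walk {K : ℕ} (ξ : Fin K → ℝ) (i : ℕ) : ℝ := ∑ j : Fin K, if (j : ℕ) < i then ξ j else 0

/-- For independent standard normal `ξ 0, …, ξ (K-1)` and `W i = ξ 0 + … + ξ (i-1)`: the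
probability that `∑_{i ≤ k} W i / i ≥ 0` for all `1 ≤ k ≤ K`. -/
noncomputable def persistenceProb (K : ℕ) : ℝ :=
  (Measure.pi (fun _ : Fin K => gaussianReal 0 1)).real
    {ξ | ∀ k ∈ Icc 1 K, 0 ≤ ∑ i ∈ Icc 1 k, walk ξ i / i}

/-- The covariance matrix, with entries `(1 + |t i - t j| / 2) e ^ (-|t i - t j| / 2)`, of the
values at the times `t 0, …, t (n-1)` of a stationary process. -/
noncomputable def covMatrix {n : ℕ} (t : Fin n → ℝ) : Matrix (Fin n) (Fin n) ℝ :=
  Matrix.of fun i j => (1 + |t i - t j| / 2) * Real.exp (-(|t i - t j| / 2))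

/-- The probability that the centred Gaussian vector with covariance matrix `covMatrix t` has
all its coordinates nonnegative. -/
noncomputable def positiveAt {n : ℕ} (t : Fin n → ℝ) : ℝ :=
  (multivariateGaussian 0 (covMatrix t)).real {x : EuclideanSpace ℝ (Fin n) | ∀ i, 0 ≤ x i}

/-- The infimum of `positiveAt t` over all finite sequences `t` of times in `[0, T]`. -/
noncomputable def positiveOn (T : ℝ) : ℝ :=
  ⨅ p : (Σ n : ℕ, {t : Fin n → ℝ // ∀ i, 0 ≤ t i ∧ t i ≤ T}), positiveAt p.2.1

lemma graphicalProb_eq (n : ℕ) : graphicalProb (2 * n) = Pool.GP.gp (2 * n) := by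
  classical
  unfold graphicalProb
  rw [Pool.GP.gp_eq, ← Pool.GP.card_graphical n]
  rfl

lemma persistenceProb_eq (K : ℕ) : persistenceProb K = Pool.GP.gB 1 K 0 := by
  unfold persistenceProb Pool.GP.gB Pool.GP.gam
  congr 1
  ext ξ
  have h : ∀ k ∈ Icc 1 K, Pool.GP.Sk (fun i : Fin K => Pool.GP.Wg ξ i / ((i:ℝ)+1)) k =
      ∑ i ∈ Icc 1 k, walk ξ i / i := by
    intro k hk
    rw [Finset.mem_Icc] at hk
    rw [← Pool.GP.Sk_toIcc hk.2 (fun m => walk ξ m / m)]
    congr 1
    funext i
    have h1 : Pool.GP.Wg ξ i = walk ξ ((i:ℕ)+1) := by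
      unfold Pool.GP.Wg walk
      refine Finset.sum_congr rfl fun j _ => ?_
      have : j ≤ i ↔ (j:ℕ) < (i:ℕ) + 1 := by rw [Fin.le_def]; omega
      simp only [this]
    rw [h1]
    push_cast
    rfl
  constructor
  · intro h1 k hk
    rw [h k hk]
    simpa using h1 k hk
  · intro h1 k hk
    have := h1 k hk
    rw [h k hk] at this
    simpa using this

lemma covMatrix_posSemidef {n : ℕ} (t : Fin n → ℝ) : (covMatrix t).PosSemidef := by
  have h0 : covMatrix t = Matrix.of fun i j : Fin n => Pool.GP.rM (t i - t j) := rfl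
  rw [h0, Matrix.posSemidef_iff_dotProduct_mulVec]
  refine ⟨?_, fun x => ?_⟩
  · ext i j
    rw [Matrix.conjTranspose_apply, Matrix.of_apply, Matrix.of_apply, star_trivial,
      ← Pool.GP.rM_neg, neg_sub]
  · rw [star_trivial, Pool.GP.qf_eq_dot]
    exact Pool.GP.qf_rM_nonneg t x

lemma positiveOn_eq (T : ℝ) : positiveOn T = Pool.GP.persC T := rfl

/-- **Existence, identification and value of the exponent.** There is a real number `α` with
`0.0792 ≤ α ≤ 0.0793` such that the probability that a partition of `2n` is graphical is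
`n ^ (-α + o(1))`, the Gaussian persistence probability is `K ^ (-2α + o(1))`, and the
probability that the stationary Gaussian process with covariance
`(1 + |s - t| / 2) e ^ (-|s - t| / 2)` stays nonnegative on `[0, T]` is `e ^ (-(2α + o(1)) T)`. -/
theorem result : ∃ α : ℝ, 0.0792 ≤ α ∧ α ≤ 0.0793 ∧
    Tendsto (fun n : ℕ => -Real.log (graphicalProb (2 * n)) / Real.log n) atTop (𝓝 α) ∧
    Tendsto (fun K : ℕ => -Real.log (persistenceProb K) / Real.log K) atTop (𝓝 (2 * α)) ∧
    (∀ (n : ℕ) (t : Fin n → ℝ), (covMatrix t).PosSemidef) ∧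
    Tendsto (fun T : ℝ => -Real.log (positiveOn T) / T) atTop (𝓝 (2 * α)) := by
  have e : 2 * (Pool.GP.theta / 2) = Pool.GP.theta := by ring
  refine ⟨Pool.GP.theta / 2, ?_, ?_, ?_, ?_, fun n t => covMatrix_posSemidef t, ?_⟩
  · have := Pool.H56P.theta_ge
    norm_num at this ⊢
    linarith
  · have := Pool.H56P.theta_le
    norm_num at this ⊢
    linarith
  · simp only [graphicalProb_eq]
    exact Pool.GP.gp_log
  · rw [e]
    simp only [persistenceProb_eq]
    exact Pool.GP.gB_tendsto
  · rw [e]
    simp only [positiveOn_eq]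
    exact Pool.GP.persC_tendsto

end Pool.Agent.Results.MP_08fd0c_co.DecayExponentValue
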